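import Pool.Agent.H317.GR.StmB
import Pool.Graph.R_pool_sql_team_seeded_707910d6.Results.MP_a2a22c_al.AxisStabilizer

/-!
# Project GR: the last step (FIS)
-/

set_option autoImplicit false

namespace Pool.Agent.H264.GR

open Matrix Pool.Agent.H317.GR
open scoped commutatorElement

/-- The commutators are in the lower central series. -/
theorem LC_mem {G : Type} [Group G] (x : ℕ → G) (j : ℕ) :
    LC x j ∈ (⊤ : Subgroup G).lowerCentralSeries j := by
  induction j with
  | zero => exact Subgroup.mem_top _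
  | succ j ih =>
    rw [Subgroup.lowerCentralSeries_succ]
    exact Subgroup.commutator_mem_commutator ih (Subgroup.mem_top _)

/-- The last commutators are central. -/
theorem LC_comm {G : Type} [Group G] {m : ℕ}
    (h : (⊤ : Subgroup G).lowerCentralSeries (m + 1) = ⊥) (x : ℕ → G) (g : G) :
    Commute (LC x m) g := by
  have h1 : ⁅LC x m, g⁆ ∈ (⊤ : Subgroup G).lowerCentralSeries (m + 1) := by
    rw [Subgroup.lowerCentralSeries_succ]
    exact Subgroup.commutator_mem_commutator (LC_mem x m) (Subgroup.mem_top _)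
  rw [h, Subgroup.mem_bot] at h1
  exact commutatorElement_eq_one_iff_commute.1 h1

/-- If `w ^ i` commutes with `y` and the commutator `c` of `w` and `y` is central then `c ^ i = 1`. -/
theorem comm_pow {G : Type} [Group G] (w y : G) (hc : Commute ⁅w, y⁆ w) (i : ℤ)
    (h : Commute (w ^ i) y) : ⁅w, y⁆ ^ i = 1 := by
  have h1 : y * w * y⁻¹ = ⁅w, y⁆⁻¹ * w := by
    rw [commutatorElement_def]
    group
  have h2 : y * w ^ i * y⁻¹ = ⁅w, y⁆⁻¹ ^ i * w ^ i := by
    rw [← conj_zpow, h1]
    exact (hc.inv_left).mul_zpow i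
  have h3 : y * w ^ i * y⁻¹ = w ^ i := by
    rw [← h.eq, mul_inv_cancel_right]
  rw [h3, _root_.inv_zpow] at h2
  have h4 : (⁅w, y⁆ ^ i)⁻¹ = 1 := mul_right_cancel (b := w ^ i) (by rw [← h2, one_mul])
  exact inv_eq_one.1 h4

theorem fis : S_RKZ → S_LIN → S_FIS := by
  intro hRKZ hLIN m hm Λ _ N hN x E hE hx σ hσ hD K _ _ v φ hvφ
  obtain ⟨k, rfl⟩ : ∃ k, m = k + 1 := ⟨m - 1, by omega⟩
  obtain ⟨a, b, hab⟩ := hRKZ K _ _ v φ hvφ
  set c : N := LC x (k + 1) with hc
  set w : N := LC x k with hw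
  have hcw : c = ⁅w, x (k + 1)⁆ := rfl
  have hcc : ∀ g : N, Commute c g := fun g => LC_comm hN x g
  have hcz : ∀ i : ℤ, c ^ i = 1 → i = 0 := by
    intro i hi
    by_contra hne
    exact hx (isOfFinOrder_iff_zpow_eq_one.2 ⟨i, hne, hi⟩)
  have hE' : ((E : ℤ)) ≠ 0 := by exact_mod_cast hE.ne'
  set t : SZ (k + 1 + 2) := σ ((c : N) : Λ) ^ E with ht
  have htv : t.val = 1 + vecMulVec a b := by
    rw [← hab]
    abel
  have ht1 : t ≠ 1 := by
    intro h
    apply hE'
    apply hcz
    apply Subtype.ext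
    apply hσ
    rw [zpow_natCast, Subgroup.coe_pow, map_pow, ← ht, h, Subgroup.coe_one, map_one]
  have ha : a ≠ 0 := by
    rintro rfl
    apply ht1
    apply Subtype.ext
    rw [htv, zero_vecMulVec, add_zero]
    rfl
  have hb : b ≠ 0 := by
    rintro rfl
    apply ht1
    apply Subtype.ext
    rw [htv, vecMulVec_zero, add_zero]
    rfl
  set u : SZ (k + 1 + 2) := σ ((w : N) : Λ) with hu
  have hut : u * t = t * u := by
    have h1 : (w : Λ) * (c : Λ) ^ E = (c : Λ) ^ E * (w : Λ) := by
      have h2 := congrArg (fun g : N => (g : Λ)) ((hcc w).pow_left E).eq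
      simpa using h2.symm
    rw [hu, ht, ← map_pow, ← map_mul, h1, map_mul]
  have hcomm : u.val * vecMulVec a b = vecMulVec a b * u.val := by
    have h1 := congrArg Subtype.val hut
    have h2 : u.val * t.val = t.val * u.val := h1
    rw [htv, mul_add, add_mul, mul_one, one_mul] at h2
    exact add_left_cancel h2
  have hline := hLIN _ u a b ha hb hcomm
  have hind : ∀ i j : ℤ, u ^ i = t ^ j → i = 0 ∧ j = 0 := by
    intro i j hij
    have h1 : w ^ i = c ^ ((E : ℤ) * j) := by
      apply Subtype.ext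
      apply hσ
      rw [Subgroup.coe_zpow, Subgroup.coe_zpow, map_zpow, map_zpow, _root_.zpow_mul, zpow_natCast]
      exact hij
    have h2 : Commute (w ^ i) (x (k + 1)) := by
      rw [h1]
      exact (hcc _).zpow_left _
    have h3 := comm_pow w (x (k + 1)) (hcc w) i h2
    have h4 : i = 0 := hcz i h3
    refine ⟨h4, ?_⟩
    rw [h4, zpow_zero] at h1
    have h5 := hcz _ h1.symm
    exact (mul_eq_zero.1 h5).resolve_left hE'
  have hres := (Pool.Agent.Results.MP_a2a22c_al.AxisStabilizer.result (k + 1 + 2) (by omega)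
    σ.range t u ⟨((c : N) : Λ) ^ E, by rw [map_pow]⟩ ⟨((w : N) : Λ), rfl⟩ a b ha hb htv (by
      rcases hline with h | h
      · exact Or.inl h
      · exact Or.inr (Or.inl h)) hind).2 hD
  exact ⟨MulEquiv.ofBijective σ ⟨hσ, MonoidHom.range_eq_top.1 hres⟩⟩

end Pool.Agent.H264.GR
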